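import Pool.Agent.Lib.helper4.CXGame
import Pool.Agent.Lib.lead.CXBase

set_option autoImplicit false
set_option linter.unusedSectionVars false

namespace Pool.Agent.H.MP_817c3f_lc

open Pool.Agent.Lib.CX Function

def EB {V : Type} [DecidableEq V] (L R : List (V × V)) (p q : Finset V × Bool) : Prop :=
  ∃ e ∈ if p.2 then L else R, e.1 ∈ p.1 ∧ e.2 ∉ p.1 ∧ q = (insert e.2 (p.1.erase e.1), !p.2)

variable {K : Type} [DecidableEq K] [Inhabited K]

abbrev Y (K : Type) := ℕ × Act K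

set_option synthInstance.maxSize 1000 in
instance : DecidableEq (Act K) := fun _ _ => instDecidableEqProd _ _
instance : DecidableEq (Y K) := fun _ _ => instDecidableEqProd _ _

abbrev q0 : Q8 := ((false, false), false)
abbrev vR (k : K) (q : Q8) : Y K := (0, k, q, [], [])
abbrev vC (n : ℕ) : Y K := (n, default, q0, [], [])

def wit (A : List (Act K)) (a : Act K) : List (Y K) :=
  q8.map (vR a.1) ++ (a.2.2.1.map (fun w => vR w.1 w.2) ++ (A.filter (· ≠ a)).map (2, ·))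
def eL (A : List (Act K)) : List (Y K × Y K) :=
  A.flatMap fun a => (vR a.1 a.2.1, (1, a)) :: (vC 5, (4, a)) :: (wit A a).map fun w => ((w.1 + 6, w.2), w)
def eR (A : List (Act K)) : List (Y K × Y K) :=
  (vC 9, vC 10) :: (vC 10, vC 9) :: (vC 11, vC 5) :: A.flatMap fun a => ((1, a), (2, a)) ::
    (a.2.2.2.map (fun t => ((1, a), vR a.1 t)) ++
      (wit A a).flatMap fun w => [((4, a), (w.1 + 6, w.2)), ((w.1 + 6, w.2), vC 9)])

variable {A : List (Act K)} {p : Finset (Y K)} {q : Finset (Y K) × Bool}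

theorem mvL : EB (eL A) (eR A) (p, true) q ↔ ∃ u v, u ∈ p ∧ v ∉ p ∧ q = (insert v (p.erase u), false) ∧
    ∃ a ∈ A, u = vR a.1 a.2.1 ∧ v = (1, a) ∨ u = vC 5 ∧ v = (4, a) ∨ v ∈ wit A a ∧ u = (v.1 + 6, v.2) := by
  simp only [EB, eL, if_true, List.mem_flatMap, List.mem_cons, List.mem_map, Bool.not_true]
  constructor
  · rintro ⟨e, ⟨a, ha, rfl | rfl | ⟨w, hw, rfl⟩⟩, h1, h2, h3⟩ <;> exact ⟨_, _, h1, h2, h3, a, ha, by simp [*]⟩
  · rintro ⟨u, v, h1, h2, h3, a, ha, h⟩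
    exact ⟨(u, v), ⟨a, ha, by grind⟩, h1, h2, h3⟩

theorem mvR : EB (eL A) (eR A) (p, false) q ↔ ∃ u v, u ∈ p ∧ v ∉ p ∧ q = (insert v (p.erase u), true) ∧
    (u = vC 9 ∧ v = vC 10 ∨ u = vC 10 ∧ v = vC 9 ∨ u = vC 11 ∧ v = vC 5 ∨
      ∃ a ∈ A, u = (1, a) ∧ (v = (2, a) ∨ ∃ t ∈ a.2.2.2, v = vR a.1 t) ∨
      ∃ w ∈ wit A a, u = (4, a) ∧ v = (w.1 + 6, w.2) ∨ u = (w.1 + 6, w.2) ∧ v = vC 9) := by
  simp only [EB, eR, Bool.false_eq_true, if_false, List.mem_flatMap, List.mem_cons, List.mem_map, Bool.not_false,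
    List.mem_append, List.not_mem_nil, or_false]
  constructor
  · rintro ⟨e, h, h1, h2, h3⟩
    exact ⟨_, _, h1, h2, h3, by grind⟩
  · rintro ⟨u, v, h1, h2, h3, h⟩
    exact ⟨(u, v), by grind, h1, h2, h3⟩

theorem mem_wit {a : Act K} {w : Y K} : w ∈ wit A a ↔ (∃ q, w = vR a.1 q) ∨
    (∃ x ∈ a.2.2.1, w = vR x.1 x.2) ∨ ∃ b ∈ A, b ≠ a ∧ w = (2, b) := by
  simp [wit, mem_q8, eq_comm (b := w), and_assoc, -Prod.exists, -Prod.forall]

theorem wit_k {a : Act K} {w : Y K} (h : w ∈ wit A a) : w.1 = 0 ∨ w.1 = 2 := by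
  rcases mem_wit.1 h with ⟨_, rfl⟩ | ⟨_, -, rfl⟩ | ⟨_, -, -, rfl⟩ <;> simp

theorem win_chk {a : Act K} (ha : a ∈ A) (h1 : ∀ v ∈ p, v.1 = 0 ∨ v.1 = 2 ∨ v = vC 5) (h2 : vC 5 ∈ p)
    (h3 : ∀ w ∈ wit A a, w ∉ p) : Win (EB (eL A) (eR A)) (p, true) := by
  refine .mk _ (mvL.2 ⟨vC 5, (4, a), h2, by grind, rfl, a, ha, by simp⟩) fun q hq => ?_
  obtain ⟨u, v, a1, a2, rfl, a3⟩ := mvR.1 hq
  obtain ⟨w, hw, rfl, rfl⟩ : ∃ w ∈ wit A a, u = (4, a) ∧ v = (w.1 + 6, w.2) := by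
    have : u = (4, a) ∨ u.1 = 0 ∨ u.1 = 2 := by grind
    clear hq a1 a2
    grind
  have := wit_k hw
  refine .mk _ (mvL.2 ⟨(w.1 + 6, w.2), w, by simp, by grind, rfl, a, ha, by simp [hw]⟩) fun q hq => ?_
  obtain ⟨u, v, a1, -, -, a3⟩ := mvR.1 hq
  have : u.1 = 0 ∨ u.1 = 2 := by clear a3; grind
  rcases a3 with h | h | h | ⟨_, -, h | ⟨_, -, h | h⟩⟩ <;> simp [h.1] at this

def Rep (σ : K → Option Q8) (p : Finset (Y K)) : Prop :=
  (∀ v ∈ p, v.1 = 0 ∨ v = vC 5) ∧ vC 5 ∈ p ∧ ∀ k q, vR k q ∈ p ↔ σ k = some q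

theorem rep_step {σ : K → Option Q8} {a : Act K} (h : Rep σ p) (h1 : σ a.1 = some a.2.1) (t : Q8) :
    Rep (update σ a.1 (some t)) (insert (vR a.1 t) ((insert (1, a) (p.erase (vR a.1 a.2.1))).erase (1, a))) := by
  obtain ⟨a1, a2, a3⟩ := h
  refine ⟨by grind, by grind, fun k q => ?_⟩
  have := a3 k q
  simp only [Finset.mem_insert, Finset.mem_erase, update_apply]
  grind

theorem win_of {σ : K → Option Q8} (h : AW A σ) : ∀ p, Rep σ p → Win (EB (eL A) (eR A)) (p, true) := by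
  induction h with
  | @act σ a ha a1 a2 _ ih =>
    intro p h
    have h' := h
    unfold Rep at h'
    refine .mk _ (mvL.2 ⟨vR a.1 a.2.1, (1, a), by grind, by grind, rfl, a, ha, by simp⟩) fun q hq => ?_
    obtain ⟨u, v, b1, b2, rfl, b3⟩ := mvR.1 hq
    obtain ⟨rfl, rfl | ⟨t, ht, rfl⟩⟩ : u = (1, a) ∧ (v = (2, a) ∨ ∃ t ∈ a.2.2.2, v = vR a.1 t) := by grind
    · exact win_chk ha (by grind) (by grind) fun w hw => by
        have := mem_wit.1 hw
        grind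
    · exact ih t ht _ (rep_step h a1 t)

def Inv (T : List K) (A : List (Act K)) (p : Finset (Y K)) : Prop :=
  ¬(vC 9 ∈ p ↔ vC 10 ∈ p) ∨ vC 9 ∉ p ∧ vC 10 ∉ p ∧ ((∃ a ∈ A, ∃ w ∈ wit A a, w ∈ p ∧ (w.1 + 6, w.2) ∈ p) ∨
    (∀ v ∈ p, v.1 = 0 ∨ v.1 = 2 ∨ v = vC 5) ∧
      ((∃ σ, ¬AW A σ ∧ (∀ k ∈ T, σ k ≠ none) ∧ Rep σ p) ∨ (∀ a ∈ A, ∃ w ∈ wit A a, w ∈ p) ∧
        (∃ a ∈ A, (2, a) ∈ p) ∧ ∀ a, (2, a) ∈ p → vR a.1 a.2.1 ∉ p))

theorem inv_sink {T : List K} {b : Act K} (hb : b ∈ A) (a1 : ∀ v ∈ p, v.1 = 0 ∨ v.1 = 2 ∨ v = vC 5)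
    (a4 : ∀ a, (2, a) ∈ p → vR a.1 a.2.1 ∉ p) (h : vR b.1 b.2.1 ∈ p)
    (hw : ∃ w ∈ wit A b, w ≠ vR b.1 b.2.1 ∧ w ∈ p) :
    ∃ r, EB (eL A) (eR A) (insert (1, b) (p.erase (vR b.1 b.2.1)), false) r ∧ r.2 = true ∧ Inv T A r.1 := by
  refine ⟨_, mvR.2 ⟨(1, b), (2, b), by simp, by grind, rfl, by grind⟩, rfl,
    .inr ⟨by grind, by grind, .inr ⟨by grind, .inr ⟨fun c _ => ?_, ⟨b, hb, by simp⟩, by grind⟩⟩⟩⟩
  by_cases e : b = c
  · obtain ⟨w, b1, b2, b3⟩ := hw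
    have := wit_k b1
    exact ⟨w, e ▸ b1, by grind⟩
  · exact ⟨_, mem_wit.2 (.inr (.inr ⟨b, hb, e, rfl⟩)), by simp⟩

theorem not_win_of {T : List K} (hA : ∀ a ∈ A, a.1 ∈ T) {σ : K → Option Q8} (h : ¬AW A σ) (h1 : ∀ k ∈ T, σ k ≠ none)
    (h2 : Rep σ p) : ¬Win (EB (eL A) (eR A)) (p, true) := by
  refine not_win (J := fun p => p.2 = true ∧ Inv T A p.1) ?_ ⟨rfl, .inr (by
    have := h2
    unfold Rep at this
    exact ⟨by grind, by grind, .inr ⟨by grind, .inl ⟨σ, h, h1, h2⟩⟩⟩)⟩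
  rintro ⟨p, _⟩ ⟨rfl, hp⟩ q hq
  suffices ∃ r, EB (eL A) (eR A) q r ∧ r.2 = true ∧ Inv T A r.1 from this.imp fun r h => ⟨h.1, .inl h.2⟩
  obtain ⟨u, v, c1, c2, rfl, b, hb, c3⟩ := mvL.1 hq
  have wk := @wit_k K _ _ A
  rcases hp with hp | ⟨a1, a2, ⟨a, ha, w, hw, a3, a4⟩ | ⟨a3, a4⟩⟩
  · by_cases e : vC 9 ∈ p
    · exact ⟨_, mvR.2 ⟨vC 9, vC 10, by grind, by grind, rfl, by simp⟩, rfl, .inl (by simp)⟩
    · exact ⟨_, mvR.2 ⟨vC 10, vC 9, by grind, by grind, rfl, by simp⟩, rfl, .inl (by simp)⟩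
  · exact ⟨_, mvR.2 ⟨(w.1 + 6, w.2), vC 9, by grind, by grind, rfl, by grind⟩, rfl, .inl (by grind)⟩
  rcases c3 with ⟨rfl, rfl⟩ | ⟨rfl, rfl⟩ | ⟨c3, rfl⟩
  · rcases a4 with ⟨σ, b1, b2, b3⟩ | ⟨-, ⟨a, b1, b2⟩, b3⟩
    · have b0 := b3
      unfold Rep at b0
      have b4 : σ b.1 = some b.2.1 := by grind
      by_cases g : ∀ w ∈ b.2.2.1, w.1 ≠ b.1 → σ w.1 ≠ some w.2
      · obtain ⟨t, ht, b5⟩ : ∃ t ∈ b.2.2.2, ¬AW A (update σ b.1 (some t)) := by
          by_contra hc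
          exact b1 (.act b hb b4 g (by grind))
        exact ⟨_, mvR.2 ⟨(1, b), vR b.1 t, by simp, by grind, rfl, by grind⟩, rfl, .inr ⟨by grind, by grind,
          .inr ⟨by grind, .inl ⟨_, b5, by simp only [update_apply]; grind, rep_step b3 b4 t⟩⟩⟩⟩
      · push Not at g
        obtain ⟨x, d1, d2, d3⟩ := g
        exact inv_sink hb a3 (by grind) c1 ⟨_, mem_wit.2 (.inr (.inl ⟨x, d1, rfl⟩)), by simp [d2], by grind⟩
    · exact inv_sink hb a3 b3 c1 ⟨_, mem_wit.2 (.inr (.inr ⟨a, b1, by grind, rfl⟩)), by simp, b2⟩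
  · obtain ⟨w, hw, b1⟩ : ∃ w ∈ wit A b, w ∈ p := by
      rcases a4 with ⟨σ, -, b2, b3⟩ | h
      · obtain ⟨t, ht⟩ := Option.ne_none_iff_exists'.1 (b2 b.1 (hA b hb))
        exact ⟨_, mem_wit.2 (.inl ⟨t, rfl⟩), (b3.2.2 ..).2 ht⟩
      · exact h.1 b hb
    exact ⟨_, mvR.2 ⟨(4, b), (w.1 + 6, w.2), by simp, by grind, rfl, by grind⟩, rfl,
      .inr ⟨by grind, by grind, .inl ⟨b, hb, w, hw, by grind, by simp⟩⟩⟩
  · grind

def init (T : List K) (n : ℕ) : List (Y K) := vC n :: T.map (vR · q0)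

theorem main {T : List K} (hA : ∀ a ∈ A, a.1 ∈ T) :
    (GA (T, A) ↔ Win (EB (eL A) (eR A)) ((init T 5).toFinset, true)) ∧
      (GA (T, A) ↔ Lose (EB (eL A) (eR A)) ((init T 11).toFinset, false)) := by
  have r : Rep (fun k => if k ∈ T then some q0 else none) (init T 5).toFinset :=
    ⟨by simp only [init, List.mem_toFinset]; grind, by simp [init], fun k q => by
      simp [init, eq_comm (a := q), and_comm]⟩
  have h : GA (T, A) ↔ Win (EB (eL A) (eR A)) ((init T 5).toFinset, true) :=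
    ⟨fun h => win_of h _ r, fun h => by_contra fun h' => not_win_of hA h' (by simp +contextual) r h⟩
  have e : insert (vC 5) ((init T 11).toFinset.erase (vC 11)) = (init T 5).toFinset := by
    ext
    simp only [init, List.mem_toFinset, Finset.mem_insert, Finset.mem_erase]
    grind
  refine ⟨h, h.trans ⟨fun h q hq => ?_, fun h => e ▸ h _ (mvR.2 ⟨vC 11, vC 5, by simp [init], by simp [init], rfl,
    by simp⟩)⟩⟩
  obtain ⟨u, v, a1, -, rfl, a3⟩ := mvR.1 hq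
  obtain ⟨rfl, rfl⟩ : u = vC 11 ∧ v = vC 5 := by
    have : u.1 = 11 ∨ u.1 = 0 := by
      simp only [init, List.mem_toFinset] at a1
      clear a3
      grind
    rcases a3 with h | h | h | ⟨_, -, h | ⟨_, hw, h | h⟩⟩
    iterate 2 simp [h.1] at this
    · exact h
    iterate 2 simp [h.1] at this
    have := wit_k hw
    grind
  exact e ▸ h

section
variable {V V' : Type} [DecidableEq V] [DecidableEq V']

theorem eb_map {g : V → V'} (hg : Injective g) (L R : List (V × V)) (T : List V) (b : Bool) :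
    (Win (EB (L.map (Prod.map g g)) (R.map (Prod.map g g))) ((T.map g).toFinset, b) ↔ Win (EB L R) (T.toFinset, b)) ∧
    (Lose (EB (L.map (Prod.map g g)) (R.map (Prod.map g g))) ((T.map g).toFinset, b) ↔
      Lose (EB L R) (T.toFinset, b)) := by
  have e : ∀ b : Bool, (if b then L.map (Prod.map g g) else R.map (Prod.map g g)) =
    (if b then L else R).map (Prod.map g g) := by simp
  refine win_iff (R := fun p p' => p = (p'.1.image g, p'.2)) ?_ ?_ (by ext <;> simp)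
  · rintro _ p rfl _ ⟨_, h, h1, h2, rfl⟩
    obtain ⟨x, he, rfl⟩ := List.mem_map.1 (e _ ▸ h)
    exact ⟨_, ⟨x, he, by simpa [hg.eq_iff] using h1, by simpa [hg.eq_iff] using h2, rfl⟩,
      by simp [Finset.image_erase hg]⟩
  · rintro _ p rfl _ ⟨x, h, h1, h2, rfl⟩
    exact ⟨_, ⟨Prod.map g g x, e _ ▸ List.mem_map_of_mem h, by simpa [hg.eq_iff] using h1,
      by simpa [hg.eq_iff] using h2, rfl⟩, by simp [Finset.image_erase hg]⟩

def ebName [Enc V] (a : List (V × V) × List (V × V) × List V × Bool) : List (ℕ × ℕ) × List (ℕ × ℕ) × List ℕ × Bool :=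
  (a.1.map (Prod.map nameOf nameOf), a.2.1.map (Prod.map nameOf nameOf), a.2.2.1.map nameOf, a.2.2.2)

theorem ebName_pt [Enc V] : PT (ebName (V := V)) := by unfold ebName Prod.map; fun_prop

end

theorem mem : (InEXP fun a : List (ℕ × ℕ) × List (ℕ × ℕ) × List ℕ × Bool =>
      Win (EB a.1 a.2.1) (a.2.2.1.toFinset, a.2.2.2)) ∧
    InEXP fun a : List (ℕ × ℕ) × List (ℕ × ℕ) × List ℕ × Bool => Lose (EB a.1 a.2.1) (a.2.2.1.toFinset, a.2.2.2) := by
  let mv : List (ℕ × ℕ) × List (ℕ × ℕ) × List ℕ × Bool → List ℕ × Bool → List (List ℕ × Bool) := fun a s =>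
    ((if s.2 then a.1 else a.2.1).filter fun e => e.1 ∈ s.1 ∧ e.2 ∉ s.1).map fun e =>
      (e.2 :: s.1.filter (· ≠ e.1), !s.2)
  have e : ∀ (s : List ℕ) (u v : ℕ), insert v (s.toFinset.erase u) = (v :: s.filter (· ≠ u)).toFinset :=
    fun s u v => by ext; simp [and_comm]
  have w := fun a : List (ℕ × ℕ) × List (ℕ × ℕ) × List ℕ × Bool => win_iff (M := EB a.1 a.2.1)
    (M' := fun s t => t ∈ mv a s) (R := fun p s => p = (s.1.toFinset, s.2)) (by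
      rintro _ s rfl _ ⟨x, h1, h2, h3, rfl⟩
      exact ⟨_, List.mem_map.2 ⟨x, List.mem_filter.2 ⟨h1, by simpa using And.intro h2 h3⟩, rfl⟩, by rw [e]⟩) (by
      rintro _ s rfl _ h
      obtain ⟨x, h1, rfl⟩ := List.mem_map.1 h
      simp only [List.mem_filter, decide_eq_true_eq] at h1
      exact ⟨_, ⟨x, h1.1, by simp [h1.2], by simp [h1.2], rfl⟩, by rw [e]⟩) (p' := a.2.2) rfl
  have := InEXP.of_moves mv (fun a => a.2.2) (fun a => a.2.2.1.length * (size a + 1) + 5)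
    (fun a s => s.1.length ≤ a.2.2.1.length ∧ ∀ x ∈ s.1, size x ≤ size a)
    (by simp only [mv]; fun_prop) (by fun_prop) (by fun_prop)
    (fun a => ⟨le_rfl, fun x hx => (size_mem hx).trans (by
      obtain ⟨a, b, c, d⟩ := a
      simp only [size_pair]; omega)⟩)
    fun a s ⟨h1, h2⟩ => ⟨?_, List.forall_mem_map.2 fun x hx => ?_⟩
  · exact ⟨this.1.of_iff fun a => (w a).1, this.2.of_iff fun a => (w a).2⟩
  · have := (size_list_le h2).trans (Nat.add_le_add_right (Nat.mul_le_mul_right _ h1) _)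
    obtain ⟨s, b⟩ := s
    simp [size_pair] at *
    omega
  simp only [List.mem_filter, decide_eq_true_eq] at hx
  have h3 : (s.1.filter (· ≠ x.1)).length < s.1.length :=
    List.length_filter_lt_length_iff_exists.2 ⟨_, hx.2.1, by simp⟩
  refine ⟨by simp only [List.length_cons]; omega,
    List.forall_mem_cons.2 ⟨?_, fun y hy => h2 y (List.mem_filter.1 hy).1⟩⟩
  obtain ⟨a, b, c⟩ := a
  have h5 : size x = size x.1 + size x.2 + 1 := size_pair ..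
  have := size_mem hx.1
  split_ifs at this <;> simp only [size_pair] at this ⊢ <;> omega

variable [Enc K]

set_option synthInstance.maxSize 4000

theorem red_pt (n : ℕ) (b : Bool) : PT fun a : List K × List (Act K) => ebName (eL a.2, eR a.2, init a.1 n, b) := by
  have h1 : PT fun a : List (Act K) × Act K => wit a.1 a.2 := by unfold wit; fun_prop
  have h2 : PT (eL (K := K)) := by unfold eL; fun_prop
  have h3 : PT (eR (K := K)) := by unfold eR; fun_prop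
  have h4 : PT fun a : List K => init a n := by unfold init; fun_prop
  exact ebName_pt.comp ((h2.comp PT.id.snd).pair ((h3.comp PT.id.snd).pair ((h4.comp PT.id.fst).pair (.const b))))

end Pool.Agent.H.MP_817c3f_lc
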